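import Mathlib
import Pool.Agent.H9.MMN.Final

/-!
# MP_b98b77_co, Q1: matching-mimicking networks of polynomial size exist

A terminal network is a finite graph `G` with `k` distinct terminals `t 0, …, t (k-1)`. For every
terminal network there is one with the same `k` terminals and at most `p k` vertices, `p` a fixed
polynomial of degree at most `10`, such that for every set `S` of terminals, `G - S` has a perfect
matching iff `G' - S` has.
-/

namespace Pool.Agent.Results.MP_b98b77_co.PolySizeNetworks

open Polynomial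

universe u

theorem result : ∃ p : Polynomial ℕ, p.natDegree ≤ 10 ∧
    ∀ (k : ℕ) (V : Type u) [Finite V] (G : SimpleGraph V) (t : Fin k ↪ V),
      ∃ (n : ℕ) (G' : SimpleGraph (Fin n)) (t' : Fin k ↪ Fin n), n ≤ p.eval k ∧
        ∀ S : Set (Fin k),
          (∃ M : (G.induce (t '' S)ᶜ).Subgraph, M.IsPerfectMatching) ↔
          ∃ M : (G'.induce (t' '' S)ᶜ).Subgraph, M.IsPerfectMatching := by
  refine ⟨((5 + 4 * X) ^ 4 + (17 + 8 * X) ^ 8) * (2 * (X + X ^ 2)) + 2 * X + 1, ?_, ?_⟩
  · compute_degree
  · intro k V _ G t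
    obtain ⟨n, G', t', hn, h⟩ := Pool.Agent.H9.MMN.final k G t
    refine ⟨n, G', t', hn.trans (le_of_eq ?_), h⟩
    simp [Pool.Agent.H9.MMN.bd]

end Pool.Agent.Results.MP_b98b77_co.PolySizeNetworks
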